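import Mathlib

namespace Pool.Agent.H.MP_7112d2_mp

open Matrix
open scoped ComplexOrder MatrixOrder Kronecker

/-- density matrices -/
def IsState {n : ℕ} (ρ : Matrix (Fin n) (Fin n) ℂ) : Prop := ρ.PosSemidef ∧ ρ.trace = 1

/-- completely positive trace preserving linear maps -/
def IsChannel {a b : ℕ} (Φ : Matrix (Fin a) (Fin a) ℂ →ₗ[ℂ] Matrix (Fin b) (Fin b) ℂ) : Prop :=
  (∀ X, (Φ X).trace = X.trace) ∧
  ∀ (k : ℕ) (X : Matrix (Fin k × Fin a) (Fin k × Fin a) ℂ), X.PosSemidef →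
    (Matrix.of fun p q : Fin k × Fin b =>
      Φ (Matrix.of fun i j => X (p.1, i) (q.1, j)) p.2 q.2).PosSemidef

/-- operator convexity on the positive half line -/
def OpConvex (f : ℝ → ℝ) : Prop :=
  ∀ (n : ℕ) (A B : Matrix (Fin n) (Fin n) ℂ) (t : ℝ), A.PosDef → B.PosDef → 0 ≤ t → t ≤ 1 →
    (t • cfc f A + (1 - t) • cfc f B - cfc f (t • A + (1 - t) • B)).PosSemidef

/-- generalised inverse -/
noncomputable def pinv {n : ℕ} (σ : Matrix (Fin n) (Fin n) ℂ) : Matrix (Fin n) (Fin n) ℂ :=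
  cfc (fun x : ℝ => x⁻¹) σ

/-- a matrix as a vector -/
def vec {n : ℕ} (Y : Matrix (Fin n) (Fin n) ℂ) : Fin n × Fin n → ℂ := fun p => Y p.1 p.2

/-- the map `Y ↦ ρ Y τ` as a matrix -/
def LR {n : ℕ} (ρ τ : Matrix (Fin n) (Fin n) ℂ) : Matrix (Fin n × Fin n) (Fin n × Fin n) ℂ :=
  ρ ⊗ₖ τᵀ

/-- standard f-divergence -/
noncomputable def Dstd {n : ℕ} (f : ℝ → ℝ) (ρ γ : Matrix (Fin n) (Fin n) ℂ) : ℝ :=
  (star (vec (cfc Real.sqrt γ)) ⬝ᵥ (cfc f (LR ρ (pinv γ)) *ᵥ vec (cfc Real.sqrt γ))).re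

/-- squared Riemannian semi-norm -/
noncomputable def Riem {n : ℕ} (κ : ℝ → ℝ) (σ Y : Matrix (Fin n) (Fin n) ℂ) : ℝ :=
  (star (vec Y) ⬝ᵥ (cfc κ (LR σ (pinv σ)) *ᵥ vec (Y * pinv σ))).re

/-- the quotients in the divergence coefficient -/
def stdSet {a b c : ℕ} (f : ℝ → ℝ) (N : Matrix (Fin a) (Fin a) ℂ →ₗ[ℂ] Matrix (Fin b) (Fin b) ℂ)
    (M : Matrix (Fin a) (Fin a) ℂ →ₗ[ℂ] Matrix (Fin c) (Fin c) ℂ) : Set ℝ :=
  {r | ∃ ρ γ, IsState ρ ∧ IsState γ ∧ ρ ≠ γ ∧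
    LinearMap.range ρ.mulVecLin = LinearMap.range γ.mulVecLin ∧
    Dstd f (M ρ) (M γ) ≠ 0 ∧ r = Dstd f (N ρ) (N γ) / Dstd f (M ρ) (M γ)}

/-- the quotients in the Riemannian coefficient -/
def riemSet {a b c : ℕ} (κ : ℝ → ℝ) (N : Matrix (Fin a) (Fin a) ℂ →ₗ[ℂ] Matrix (Fin b) (Fin b) ℂ)
    (M : Matrix (Fin a) (Fin a) ℂ →ₗ[ℂ] Matrix (Fin c) (Fin c) ℂ) : Set ℝ :=
  {r | ∃ ρ X, IsState ρ ∧ X.IsHermitian ∧ X.trace = 0 ∧
    Riem κ (M ρ) (M X) ≠ 0 ∧ r = Riem κ (N ρ) (N X) / Riem κ (M ρ) (M X)}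

variable {n : ℕ}

theorem contOn {m : Type*} [Fintype m] [DecidableEq m] (f : ℝ → ℝ) (A : Matrix m m ℂ) :
    ContinuousOn f (spectrum ℝ A) :=
  (A.finite_real_spectrum).continuousOn f

theorem LR_vec (ρ τ Y : Matrix (Fin n) (Fin n) ℂ) : LR ρ τ *ᵥ vec Y = vec (ρ * Y * τ) := by
  funext p
  simp only [LR, vec, mulVec, dotProduct, kroneckerMap_apply, transpose_apply, mul_apply,
    Fintype.sum_prod_type, Finset.sum_mul]
  rw [Finset.sum_comm]
  refine Finset.sum_congr rfl fun l _ => Finset.sum_congr rfl fun k _ => by ring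

theorem dot_vec (Y W : Matrix (Fin n) (Fin n) ℂ) : star (vec Y) ⬝ᵥ vec W = (Yᴴ * W).trace := by
  simp only [vec, dotProduct, Pi.star_apply, Fintype.sum_prod_type, trace, diag_apply, mul_apply,
    conjTranspose_apply]
  rw [Finset.sum_comm]

theorem pinv_psd {σ : Matrix (Fin n) (Fin n) ℂ} (h : σ.PosSemidef) : (pinv σ).PosSemidef := by
  have h0 : (0 : Matrix (Fin n) (Fin n) ℂ) ≤ σ := h.nonneg
  have : (0 : Matrix (Fin n) (Fin n) ℂ) ≤ pinv σ :=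
    cfc_nonneg fun x hx => inv_nonneg.2 (spectrum_nonneg_of_nonneg h0 hx)
  exact this.posSemidef

theorem LR_psd {ρ τ : Matrix (Fin n) (Fin n) ℂ} (h : ρ.PosSemidef) (h' : τ.PosSemidef) :
    (LR ρ τ).PosSemidef := h.kronecker h'.transpose

theorem pinv_unit {σ τ : Matrix (Fin n) (Fin n) ℂ} (h : σ.IsHermitian) (e : σ * τ = 1) :
    pinv σ = τ := by
  have e' : τ * σ = 1 := mul_eq_one_comm.1 e
  have := cfc_inv_id (R := ℝ) (p := IsSelfAdjoint) (⟨σ, τ, e, e'⟩ : (Matrix (Fin n) (Fin n) ℂ)ˣ) h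
  exact this

theorem pinv_idem {σ : Matrix (Fin n) (Fin n) ℂ} (h : σ.IsHermitian) {c : ℝ} (hc : c ≠ 0)
    (e : σ * σ = c • σ) : pinv σ = (c ^ 2)⁻¹ • σ := by
  have hs : IsSelfAdjoint σ := h
  have h1 : ∀ x ∈ spectrum ℝ σ, x * x = c * x := by
    have : cfc (fun x : ℝ => x * x) σ = cfc (fun x : ℝ => c * x) σ := by
      rw [cfc_mul _ _ σ (contOn _ _) (contOn _ _), cfc_id' ℝ σ, cfc_const_mul c _ σ (contOn _ _),
        cfc_id' ℝ σ, e]
    intro x hx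
    exact eqOn_of_cfc_eq_cfc this (contOn _ _) (contOn _ _) hs hx
  have : pinv σ = cfc (fun x : ℝ => (c ^ 2)⁻¹ * x) σ := by
    refine cfc_congr fun x hx => ?_
    have := h1 x hx
    by_cases h0 : x = 0
    · simp [h0]
    · have : x = c := mul_right_cancel₀ h0 this
      subst this
      field_simp
  rw [this, cfc_const_mul _ _ σ (contOn _ _), cfc_id' ℝ σ]

theorem cfc_kap {m : Type*} [Fintype m] [DecidableEq m] {A : Matrix m m ℂ} (h : A.PosSemidef) :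
    cfc (fun x : ℝ => 2 / (1 + x)) A * (1 + A) = (2 : ℝ) • (1 : Matrix m m ℂ) := by
  have hs : IsSelfAdjoint A := h.1
  have h0 : (0 : Matrix m m ℂ) ≤ A := h.nonneg
  have e1 : 1 + A = cfc (fun x : ℝ => 1 + x) A := by
    rw [cfc_const_add 1 _ A (contOn _ _), cfc_id' ℝ A, map_one]
  have e2 : (2 : ℝ) • (1 : Matrix m m ℂ) = cfc (fun _ : ℝ => (2 : ℝ)) A := by
    rw [cfc_const 2 A, Algebra.algebraMap_eq_smul_one]
  rw [e2]
  conv_lhs => rw [e1]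
  rw [← cfc_mul _ _ A (contOn _ _) (contOn _ _)]
  refine cfc_congr fun x hx => ?_
  have := spectrum_nonneg_of_nonneg h0 hx
  field_simp

theorem riem_eq {σ Y W : Matrix (Fin n) (Fin n) ℂ} (h : σ.PosSemidef)
    (e : W + σ * W * pinv σ = (2 : ℝ) • (Y * pinv σ)) :
    Riem (fun x => 2 / (1 + x)) σ Y = (Yᴴ * W).trace.re := by
  have hA := LR_psd h (pinv_psd h)
  have h1 : (1 + LR σ (pinv σ)) *ᵥ vec W = (2 : ℝ) • vec (Y * pinv σ) := by
    rw [add_mulVec, one_mulVec, LR_vec]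
    funext p
    have := congrFun (congrFun e p.1) p.2
    simpa [vec] using this
  have h2 : cfc (fun x : ℝ => 2 / (1 + x)) (LR σ (pinv σ)) *ᵥ vec (Y * pinv σ) = vec W := by
    have h3 := congrArg (fun v => cfc (fun x : ℝ => 2 / (1 + x)) (LR σ (pinv σ)) *ᵥ v) h1
    simp only [mulVec_mulVec, cfc_kap hA, smul_mulVec, one_mulVec, mulVec_smul] at h3
    exact (smul_right_injective _ (two_ne_zero) h3).symm
  rw [Riem, h2, dot_vec]

theorem cfc_sq {m : Type*} [Fintype m] [DecidableEq m] {A : Matrix m m ℂ} (h : A.IsHermitian) :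
    cfc (fun x : ℝ => (x - 1) ^ 2) A = (A - 1) * (A - 1) := by
  have hs : IsSelfAdjoint A := h
  rw [cfc_pow _ 2 A (contOn _ _), cfc_sub _ _ A (contOn _ _) (contOn _ _), cfc_id' ℝ A,
    cfc_const_one ℝ A, sq]

theorem dstd_nonneg (ρ γ : Matrix (Fin n) (Fin n) ℂ) : 0 ≤ Dstd (fun x => (x - 1) ^ 2) ρ γ := by
  have : (0 : Matrix _ _ ℂ) ≤ cfc (fun x : ℝ => (x - 1) ^ 2) (LR ρ (pinv γ)) :=
    cfc_nonneg fun x _ => sq_nonneg _
  have h := (this.posSemidef).dotProduct_mulVec_nonneg (vec (cfc Real.sqrt γ))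
  exact (Complex.nonneg_iff.1 h).1

theorem dstd_eq {ρ γ τ : Matrix (Fin n) (Fin n) ℂ} (h : ρ.PosSemidef) (hγ : γ.PosSemidef)
    (e : γ * τ = 1) :
    Dstd (fun x => (x - 1) ^ 2) ρ γ = ((ρ - γ) * (ρ - γ) * τ).trace.re := by
  have hp := pinv_unit hγ.1 e
  have hA := LR_psd h (pinv_psd hγ)
  have e' : τ * γ = 1 := mul_eq_one_comm.1 e
  set S := cfc Real.sqrt γ with hS
  have hs : IsSelfAdjoint γ := hγ.1
  have h0 : (0 : Matrix _ _ ℂ) ≤ γ := hγ.nonneg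
  have hSS : S * S = γ := by
    rw [hS, ← cfc_mul _ _ γ (contOn _ _) (contOn _ _)]
    conv_rhs => rw [← cfc_id' ℝ γ]
    exact cfc_congr fun x hx => Real.mul_self_sqrt (spectrum_nonneg_of_nonneg h0 hx)
  have hSH : Sᴴ = S := (cfc_predicate Real.sqrt γ : IsSelfAdjoint _)
  have hc : S * τ = τ * S := by
    have : S * γ = γ * S := by rw [← hSS, mul_assoc]
    calc S * τ = τ * γ * S * τ := by rw [e', one_mul]
      _ = τ * (S * γ) * τ := by rw [this, mul_assoc τ]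
      _ = τ * S := by rw [mul_assoc, mul_assoc, e, mul_one]
  have hv : ∀ Y, (LR ρ (pinv γ) - 1) *ᵥ vec Y = vec (ρ * Y * τ - Y) := by
    intro Y
    rw [sub_mulVec, one_mulVec, LR_vec, hp]
    rfl
  rw [Dstd, cfc_sq hA.1, ← mulVec_mulVec, hv, hv, dot_vec, hSH]
  congr 1
  have k1 : S * (ρ * (ρ * S * τ - S) * τ - (ρ * S * τ - S)) =
      S * ((ρ * ρ * τ * τ - 2 * (ρ * τ) + 1) * S) := by
    have a1 : ρ * (ρ * S * τ) * τ = ρ * ρ * τ * τ * S := by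
      calc ρ * (ρ * S * τ) * τ = ρ * ρ * (S * τ) * τ := by simp only [mul_assoc]
        _ = ρ * ρ * (τ * S) * τ := by rw [hc]
        _ = ρ * ρ * τ * (S * τ) := by simp only [mul_assoc]
        _ = _ := by rw [hc]; simp only [mul_assoc]
    have a2 : ρ * S * τ = ρ * τ * S := by rw [mul_assoc, hc, mul_assoc]
    congr 1
    rw [mul_sub, sub_mul, a1, a2]
    noncomm_ring
  rw [k1, trace_mul_comm, mul_assoc, hSS]
  have k2 : (ρ * ρ * τ * τ - 2 * (ρ * τ) + 1) * γ = ρ * ρ * τ - 2 * ρ + γ := by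
    have : ρ * ρ * τ * τ * γ = ρ * ρ * τ := by rw [mul_assoc _ τ γ, e', mul_one]
    have h2 : 2 * (ρ * τ) * γ = 2 * ρ := by rw [mul_assoc, mul_assoc, e', mul_one]
    rw [add_mul, sub_mul, this, h2, one_mul]
  have k3 : (ρ - γ) * (ρ - γ) * τ = ρ * ρ * τ - ρ - γ * ρ * τ + γ := by
    have b1 : ρ * γ * τ = ρ := by rw [mul_assoc, e, mul_one]
    have b2 : γ * γ * τ = γ := by rw [mul_assoc, e, mul_one]
    rw [sub_mul, mul_sub, mul_sub, sub_mul, sub_mul, sub_mul, b1, b2]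
    abel
  have k4 : (γ * ρ * τ).trace = ρ.trace := by
    rw [trace_mul_comm, ← mul_assoc, e', one_mul]
  rw [k2, k3, two_mul]
  simp only [trace_add, trace_sub, k4]
  ring

theorem opc_sq : OpConvex fun x => (x - 1) ^ 2 := by
  intro n A B t hA hB h0 h1
  have hC : (t • A + (1 - t) • B).IsHermitian :=
    (hA.1.smul (IsSelfAdjoint.all t)).add (hB.1.smul (IsSelfAdjoint.all _))
  rw [cfc_sq hA.1, cfc_sq hB.1, cfc_sq hC]
  have : t • ((A - 1) * (A - 1)) + (1 - t) • ((B - 1) * (B - 1)) -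
      (t • A + (1 - t) • B - 1) * (t • A + (1 - t) • B - 1) =
      (t * (1 - t)) • ((A - B)ᴴ * (A - B)) := by
    rw [(hA.1.sub hB.1).eq]
    simp only [mul_sub, sub_mul, mul_add, add_mul, smul_mul_assoc, mul_smul_comm, mul_one,
      one_mul, smul_sub, smul_add, smul_smul]
    module
  rw [this]
  exact (posSemidef_conjTranspose_mul_self _).smul (mul_nonneg h0 (sub_nonneg.2 h1))

open scoped Matrix.Norms.L2Operator in
theorem opc_kap : OpConvex fun x => 2 / (1 + x) := by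
  intro n A B t hA hB h0 h1
  have key : ∀ C : Matrix (Fin n) (Fin n) ℂ, C.PosSemidef → cfc (fun x : ℝ => 2 / (1 + x)) C =
      (2 : ℝ) • Ring.inverse (algebraMap ℝ _ 1 + C) := by
    intro C hC
    have h := cfc_kap hC
    rw [map_one]
    have hu : ((2 : ℝ)⁻¹ • cfc (fun x : ℝ => 2 / (1 + x)) C) * (1 + C) = 1 := by
      rw [smul_mul_assoc, h, smul_smul]; simp
    have hu' := mul_eq_one_comm.1 hu
    have : Ring.inverse (1 + C) = (2 : ℝ)⁻¹ • cfc (fun x : ℝ => 2 / (1 + x)) C :=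
      Ring.inverse_unit (⟨_, _, hu', hu⟩ : (Matrix (Fin n) (Fin n) ℂ)ˣ)
    rw [this, smul_smul]; simp
  have hC : (t • A + (1 - t) • B).PosSemidef :=
    (hA.posSemidef.smul h0).add (hB.posSemidef.smul (sub_nonneg.2 h1))
  rw [key _ hA.posSemidef, key _ hB.posSemidef, key _ hC]
  have hc := (CStarAlgebra.convexOn_ringInverse_algebraMap_add
    (A := Matrix (Fin n) (Fin n) ℂ) one_pos).2 hA.posSemidef.nonneg hB.posSemidef.nonneg h0
    (sub_nonneg.2 h1) (by ring)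
  have h2 := (Matrix.le_iff.1 hc).smul (show (0 : ℝ) ≤ 2 by norm_num)
  have e : ∀ P Q R : Matrix (Fin n) (Fin n) ℂ, t • (2 : ℝ) • P + (1 - t) • (2 : ℝ) • Q -
      (2 : ℝ) • R = (2 : ℝ) • (t • P + (1 - t) • Q - R) := by
    intro P Q R
    module
  rw [e]
  exact h2

end Pool.Agent.H.MP_7112d2_mp
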