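import Pool.Agent.H.MP_7112d2_mp.A

namespace Pool.Agent.H.MP_7112d2_mp

open Matrix
open scoped ComplexOrder MatrixOrder Kronecker

noncomputable def cq {a b : ℕ} (σ : Fin a → Matrix (Fin b) (Fin b) ℂ) :
    Matrix (Fin a) (Fin a) ℂ →ₗ[ℂ] Matrix (Fin b) (Fin b) ℂ where
  toFun X := ∑ i, X i i • σ i
  map_add' X Y := by simp [add_smul, Finset.sum_add_distrib]
  map_smul' c X := by simp [Finset.smul_sum, smul_smul]

theorem cq_channel {a b : ℕ} (σ : Fin a → Matrix (Fin b) (Fin b) ℂ) (h : ∀ i, IsState (σ i)) :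
    IsChannel (cq σ) := by
  constructor
  · intro X
    simp only [cq, LinearMap.coe_mk, AddHom.coe_mk, trace_sum, trace_smul, (h _).2, smul_eq_mul,
      mul_one]
    rfl
  · intro k X hX
    have : (Matrix.of fun p q : Fin k × Fin b =>
        cq σ (Matrix.of fun i j => X (p.1, i) (q.1, j)) p.2 q.2) =
        ∑ i, (X.submatrix (fun p => (p, i)) (fun p => (p, i))) ⊗ₖ σ i := by
      ext p q
      simp [cq, Matrix.sum_apply, kroneckerMap_apply]
    rw [this]
    exact posSemidef_sum _ fun i _ => (hX.submatrix _).kronecker (h i).1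

noncomputable def sM : Fin 3 → Matrix (Fin 2) (Fin 2) ℂ :=
  ![!![1, 0; 0, 0], !![1 / 2, 1 / 4; 1 / 4, 1 / 2], !![1 / 2, -1 / 4; -1 / 4, 1 / 2]]

noncomputable def dg (a b c : ℝ) : Matrix (Fin 3) (Fin 3) ℂ := diagonal ![(a : ℂ), b, c]

noncomputable def sN : Fin 3 → Matrix (Fin 3) (Fin 3) ℂ :=
  ![dg 0 (1 / 2) (1 / 2), dg (1 / 2) (3 / 8) (1 / 8), dg (1 / 2) (1 / 8) (3 / 8)]

theorem dg_psd {a b c : ℝ} (ha : 0 ≤ a) (hb : 0 ≤ b) (hc : 0 ≤ c) : (dg a b c).PosSemidef := by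
  refine PosSemidef.diagonal fun i => ?_
  fin_cases i <;> simpa

theorem dg_state {a b c : ℝ} (ha : 0 ≤ a) (hb : 0 ≤ b) (hc : 0 ≤ c) (h : a + b + c = 1) :
    IsState (dg a b c) := by
  refine ⟨dg_psd ha hb hc, ?_⟩
  simp only [dg, trace_diagonal, Fin.sum_univ_three]
  simp only [cons_val_zero, cons_val_one, cons_val]
  exact_mod_cast h

theorem dg_mul (a b c a' b' c' : ℝ) : dg a b c * dg a' b' c' = dg (a * a') (b * b') (c * c') := by
  rw [dg, dg, diagonal_mul_diagonal, dg]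
  congr 1
  funext i
  fin_cases i <;> simp

theorem dg_one : dg 1 1 1 = 1 := by
  rw [dg, ← diagonal_one]
  congr 1
  funext i
  fin_cases i <;> simp

theorem dg_add (a b c a' b' c' : ℝ) : dg a b c + dg a' b' c' = dg (a + a') (b + b') (c + c') := by
  rw [dg, dg, diagonal_add, dg]
  congr 1
  funext i
  fin_cases i <;> simp

theorem dg_sub (a b c a' b' c' : ℝ) : dg a b c - dg a' b' c' = dg (a - a') (b - b') (c - c') := by
  rw [dg, dg, diagonal_sub, dg]
  congr 1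
  funext i
  fin_cases i <;> simp

theorem dg_smul (t a b c : ℝ) : t • dg a b c = dg (t * a) (t * b) (t * c) := by
  rw [dg, ← diagonal_smul, dg]
  congr 1
  funext i
  fin_cases i <;> simp

theorem dg_herm (a b c : ℝ) : (dg a b c)ᴴ = dg a b c := by
  rw [dg, diagonal_conjTranspose]
  congr 1
  funext i
  fin_cases i <;> simp

theorem dg_trace (a b c : ℝ) : (dg a b c).trace = ((a + b + c : ℝ) : ℂ) := by
  simp [dg, Fin.sum_univ_three]

noncomputable def m2 (a b c d : ℝ) : Matrix (Fin 2) (Fin 2) ℂ := !![(a : ℂ), b; c, d]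

theorem m2_mul (a b c d a' b' c' d' : ℝ) : m2 a b c d * m2 a' b' c' d' =
    m2 (a * a' + b * c') (a * b' + b * d') (c * a' + d * c') (c * b' + d * d') := by
  simp [m2]

theorem m2_add (a b c d a' b' c' d' : ℝ) : m2 a b c d + m2 a' b' c' d' =
    m2 (a + a') (b + b') (c + c') (d + d') := by
  simp [m2]

theorem m2_sub (a b c d a' b' c' d' : ℝ) : m2 a b c d - m2 a' b' c' d' =
    m2 (a - a') (b - b') (c - c') (d - d') := by
  simp [m2]

theorem m2_smul (t a b c d : ℝ) : t • m2 a b c d = m2 (t * a) (t * b) (t * c) (t * d) := by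
  ext i j
  fin_cases i <;> fin_cases j <;> simp [m2]

theorem m2_one : m2 1 0 0 1 = 1 := by
  ext i j
  fin_cases i <;> fin_cases j <;> simp [m2]

theorem m2_herm (a b c d : ℝ) : (m2 a b c d)ᴴ = m2 a c b d := by
  ext i j
  fin_cases i <;> fin_cases j <;> simp [m2]

theorem m2_trace (a b c d : ℝ) : (m2 a b c d).trace = ((a + d : ℝ) : ℂ) := by
  simp [m2]

theorem sN_state (i : Fin 3) : IsState (sN i) := by
  fin_cases i <;> exact dg_state (by norm_num) (by norm_num) (by norm_num) (by norm_num)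

theorem sM_state (i : Fin 3) : IsState (sM i) := by
  have key : ∀ (B : Matrix (Fin 3) (Fin 2) ℂ) (j : Fin 3), sM j = Bᴴ * B → (sM j).PosSemidef :=
    fun B j h => h ▸ posSemidef_conjTranspose_mul_self B
  fin_cases i
  · refine ⟨key !![1, 0; 0, 0; 0, 0] _ ?_, by simp [sM]⟩
    ext i j
    fin_cases i <;> fin_cases j <;> simp [sM, mul_apply, Fin.sum_univ_three]
  · refine ⟨key !![1 / 2, 1 / 2; 1 / 2, 0; 0, 1 / 2] _ ?_, by simp [sM]; norm_num⟩
    ext i j
    fin_cases i <;> fin_cases j <;> simp [sM, mul_apply, Fin.sum_univ_three, map_ofNat] <;> norm_num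
  · refine ⟨key !![1 / 2, -1 / 2; 1 / 2, 0; 0, 1 / 2] _ ?_, by simp [sM]; norm_num⟩
    ext i j
    fin_cases i <;> fin_cases j <;> simp [sM, mul_apply, Fin.sum_univ_three, map_ofNat] <;> norm_num

theorem cq_psd {a b : ℕ} (σ : Fin a → Matrix (Fin b) (Fin b) ℂ) (h : ∀ i, IsState (σ i))
    {X : Matrix (Fin a) (Fin a) ℂ} (hX : X.PosSemidef) : (cq σ X).PosSemidef :=
  posSemidef_sum _ fun i _ => (h i).1.smul hX.diag_nonneg

theorem M_eq {X : Matrix (Fin 3) (Fin 3) ℂ} {x y z : ℝ} (h0 : X 0 0 = x) (h1 : X 1 1 = y)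
    (h2 : X 2 2 = z) :
    cq sM X = m2 (x + (y + z) / 2) ((y - z) / 4) ((y - z) / 4) ((y + z) / 2) := by
  ext i j
  fin_cases i <;> fin_cases j <;>
    simp [cq, sM, m2, Fin.sum_univ_three, h0, h1, h2] <;> ring

theorem N_eq {X : Matrix (Fin 3) (Fin 3) ℂ} {x y z : ℝ} (h0 : X 0 0 = x) (h1 : X 1 1 = y)
    (h2 : X 2 2 = z) :
    cq sN X = dg ((y + z) / 2) ((x + (y + z) / 2 + (y - z) / 4) / 2)
      ((x + (y + z) / 2 - (y - z) / 4) / 2) := by
  ext i j
  fin_cases i <;> fin_cases j <;>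
    simp [cq, sN, dg, Fin.sum_univ_three, h0, h1, h2] <;> ring

theorem riem_inv {n : ℕ} {σ τ Y W : Matrix (Fin n) (Fin n) ℂ} (h : σ.PosSemidef) (e : σ * τ = 1)
    (hW : W * σ + σ * W = (2 : ℝ) • Y) :
    Riem (fun x => 2 / (1 + x)) σ Y = (Yᴴ * W).trace.re := by
  apply riem_eq h
  rw [pinv_unit h.1 e, ← smul_mul_assoc, ← hW, add_mul, mul_assoc W, e, mul_one]

theorem riemN {d s u v : ℝ} (hd : 0 ≤ d) (hd' : d ≤ 1 / 2) (hs : s ≤ d / 2) (hs' : -(d / 2) ≤ s) :
    u ^ 2 * d⁻¹ * d * d⁻¹ + (u ^ 2 + v ^ 2) ≤ Riem (fun x => 2 / (1 + x))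
      (dg d ((1 - d + s) / 2) ((1 - d - s) / 2)) (dg u ((-u + v) / 2) ((-u - v) / 2)) := by
  have p1 : 0 < (1 - d + s) / 2 := by linarith
  have p2 : 0 < (1 - d - s) / 2 := by linarith
  have hp := dg_psd hd p1.le p2.le
  rcases hd.eq_or_lt with rfl | hd
  · have : s = 0 := by linarith
    subst this
    have e : pinv (dg 0 ((1 - 0 + 0) / 2) ((1 - 0 - 0) / 2)) = dg 0 2 2 := by
      rw [pinv_idem hp.1 (c := 1 / 2) (by norm_num), dg_smul]
      · norm_num
      · rw [dg_mul, dg_smul]; norm_num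
    rw [riem_eq hp (W := dg 0 (-u + v) (-u - v))]
    · rw [dg_herm, dg_mul, dg_trace, Complex.ofReal_re]
      simp only [mul_zero, _root_.inv_zero]
      nlinarith
    · rw [e, dg_mul, dg_mul, dg_mul, dg_add, dg_smul]
      congr 1 <;> ring
  · rw [riem_inv hp (τ := dg d⁻¹ ((1 - d + s) / 2)⁻¹ ((1 - d - s) / 2)⁻¹)
      (W := dg (u * d⁻¹) ((-u + v) / 2 * ((1 - d + s) / 2)⁻¹) ((-u - v) / 2 * ((1 - d - s) / 2)⁻¹))]
    · rw [dg_herm, dg_mul, dg_trace, Complex.ofReal_re]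
      have q1 : 2 ≤ ((1 - d + s) / 2)⁻¹ := by
        rw [le_inv_comm₀ (by norm_num) p1]; linarith
      have q2 : 2 ≤ ((1 - d - s) / 2)⁻¹ := by
        rw [le_inv_comm₀ (by norm_num) p2]; linarith
      have e : u ^ 2 * d⁻¹ * d * d⁻¹ = u * (u * d⁻¹) := by field_simp
      rw [e]
      nlinarith [mul_le_mul_of_nonneg_left q1 (sq_nonneg ((-u + v) / 2)),
        mul_le_mul_of_nonneg_left q2 (sq_nonneg ((-u - v) / 2))]
    · rw [dg_mul, mul_inv_cancel₀ hd.ne', mul_inv_cancel₀ p1.ne', mul_inv_cancel₀ p2.ne', dg_one]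
    · rw [dg_mul, dg_mul, dg_add, dg_smul]
      have := p1.ne'
      have := p2.ne'
      have : 1 - d + s ≠ 0 := by linarith
      have : 1 - d - s ≠ 0 := by linarith
      congr 1 <;> field_simp <;> ring

theorem riemM {d s u v : ℝ} (hd : 0 ≤ d) (hd' : d ≤ 1 / 2) (hs : s ≤ d / 2) (hs' : -(d / 2) ≤ s)
    (hp : (m2 (1 - d) s s d).PosSemidef) :
    u ^ 2 + v ^ 2 ≤ Riem (fun x => 2 / (1 + x)) (m2 (1 - d) s s d) (m2 (-u) v v u) ∧
    Riem (fun x => 2 / (1 + x)) (m2 (1 - d) s s d) (m2 (-u) v v u) ≤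
      7 * (u ^ 2 * d⁻¹ * d * d⁻¹ + (u ^ 2 + v ^ 2)) := by
  rcases hd.eq_or_lt with rfl | hd
  · have : s = 0 := by linarith
    subst this
    have e : pinv (m2 (1 - 0) 0 0 0) = m2 1 0 0 0 := by
      rw [pinv_idem hp.1 (c := 1) (by norm_num), m2_smul]
      · norm_num
      · rw [m2_mul, m2_smul]; norm_num
    rw [riem_eq hp (W := m2 (-u) 0 (2 * v) 0)]
    · rw [m2_herm, m2_mul, m2_trace, Complex.ofReal_re]
      simp only [mul_zero, _root_.inv_zero]
      constructor <;> nlinarith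
    · rw [e, m2_mul, m2_mul, m2_mul, m2_add, m2_smul]
      congr 1 <;> ring
  · have hs2 : s ^ 2 ≤ d ^ 2 / 4 := by nlinarith
    obtain ⟨D, hD⟩ : ∃ D, D = d * (1 - d) - s ^ 2 := ⟨_, rfl⟩
    have hD1 : 3 * d / 8 ≤ D := by nlinarith
    have hD0 : 0 < D := by linarith
    obtain ⟨m, hm⟩ : ∃ m, m = (2 * s * v - (1 - 2 * d) * u) / (2 * D) := ⟨_, rfl⟩
    have hm' : 2 * D * m = 2 * s * v - (1 - 2 * d) * u := by rw [hm]; field_simp
    rw [riem_inv hp (τ := m2 (d / D) (-s / D) (-s / D) ((1 - d) / D))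
      (W := m2 (-2 * u - 2 * d * m) (2 * v + 2 * s * m) (2 * v + 2 * s * m)
        (2 * u - (2 - 2 * d) * m))]
    · rw [m2_herm, m2_mul, m2_trace, Complex.ofReal_re]
      have e : u ^ 2 * d⁻¹ * d * d⁻¹ = u ^ 2 / d := by field_simp
      have e2 : -u * (-2 * u - 2 * d * m) + v * (2 * v + 2 * s * m) +
          (v * (2 * v + 2 * s * m) + u * (2 * u - (2 - 2 * d) * m)) =
          4 * (u ^ 2 + v ^ 2) + (2 * s * v - (1 - 2 * d) * u) ^ 2 / D := by
        rw [hm]; field_simp; ring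
      rw [e, e2]
      have h1 : 0 ≤ (2 * s * v - (1 - 2 * d) * u) ^ 2 / D := by positivity
      have h2 : (2 * s * v - (1 - 2 * d) * u) ^ 2 ≤ 2 * d ^ 2 * v ^ 2 + 2 * u ^ 2 := by
        have a1 : (2 * s * v) ^ 2 ≤ d ^ 2 * v ^ 2 := by nlinarith [sq_nonneg v]
        have a2 : ((1 - 2 * d) * u) ^ 2 ≤ u ^ 2 := by
          have : (1 - 2 * d) ^ 2 ≤ 1 := by nlinarith
          nlinarith [sq_nonneg u]
        nlinarith [sq_nonneg (2 * s * v + (1 - 2 * d) * u)]
      have h3 : (2 * s * v - (1 - 2 * d) * u) ^ 2 / D ≤ 3 * v ^ 2 + 7 * (u ^ 2 / d) := by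
        rw [div_le_iff₀ hD0]
        have b1 : u ^ 2 / d * d = u ^ 2 := by field_simp
        have b2 : 0 ≤ u ^ 2 / d := by positivity
        have b3 : 2 * d ^ 2 * v ^ 2 ≤ 3 * v ^ 2 * D := by
          have : 2 * d ^ 2 ≤ 3 * D := by nlinarith
          nlinarith [sq_nonneg v]
        nlinarith [mul_le_mul_of_nonneg_left hD1 b2]
      constructor <;> nlinarith [sq_nonneg u, sq_nonneg v]
    · rw [m2_mul, ← m2_one]
      congr 1 <;> field_simp <;> rw [hD] <;> ring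
    · rw [m2_mul, m2_mul, m2_add, m2_smul]
      rw [hD] at hm'
      congr 1
      · linear_combination (-2) * hm'
      · ring
      · ring
      · linear_combination (-2) * hm'

theorem diag_real {X : Matrix (Fin 3) (Fin 3) ℂ} (h : X.IsHermitian) (i : Fin 3) :
    X i i = ((X i i).re : ℂ) := (h.coe_re_apply_self i).symm

theorem trace_real {X : Matrix (Fin 3) (Fin 3) ℂ} {t : ℝ} (h : X.trace = t) :
    (X 0 0).re + (X 1 1).re + (X 2 2).re = t := by
  have := congrArg Complex.re h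
  simpa [trace, Fin.sum_univ_three] using this

theorem riem_bound {ρ X : Matrix (Fin 3) (Fin 3) ℂ} (hρ : IsState ρ) (hX : X.IsHermitian)
    (ht : X.trace = 0) :
    ((X 1 1).re + (X 2 2).re) ^ 2 / 4 ≤ Riem (fun x => 2 / (1 + x)) (cq sM ρ) (cq sM X) ∧
    Riem (fun x => 2 / (1 + x)) (cq sM ρ) (cq sM X) ≤
      7 * Riem (fun x => 2 / (1 + x)) (cq sN ρ) (cq sN X) := by
  have hp := cq_psd sM sM_state hρ.1
  have t1 := trace_real (t := 1) (hρ.2.trans (by simp))
  have t2 := trace_real (t := 0) (ht.trans (by simp))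
  have n0 := (Complex.nonneg_iff.1 (hρ.1.diag_nonneg (i := 0))).1
  have n1 := (Complex.nonneg_iff.1 (hρ.1.diag_nonneg (i := 1))).1
  have n2 := (Complex.nonneg_iff.1 (hρ.1.diag_nonneg (i := 2))).1
  rw [M_eq (diag_real hρ.1.1 0) (diag_real hρ.1.1 1) (diag_real hρ.1.1 2)] at hp ⊢
  rw [N_eq (diag_real hρ.1.1 0) (diag_real hρ.1.1 1) (diag_real hρ.1.1 2),
    M_eq (diag_real hX 0) (diag_real hX 1) (diag_real hX 2),
    N_eq (diag_real hX 0) (diag_real hX 1) (diag_real hX 2)]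
  generalize (ρ 0 0).re = p0 at *
  generalize (ρ 1 1).re = p1 at *
  generalize (ρ 2 2).re = p2 at *
  generalize (X 0 0).re = x0 at *
  generalize (X 1 1).re = x1 at *
  generalize (X 2 2).re = x2 at *
  have e1 : p0 + (p1 + p2) / 2 = 1 - (p1 + p2) / 2 := by linarith
  have e2 : x0 + (x1 + x2) / 2 = -((x1 + x2) / 2) := by linarith
  rw [e1] at hp ⊢
  rw [e2]
  have hM := riemM (u := (x1 + x2) / 2) (v := (x1 - x2) / 4) (by linarith) (by linarith)
    (by linarith) (by linarith) hp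
  have hN := riemN (d := (p1 + p2) / 2) (s := (p1 - p2) / 4) (u := (x1 + x2) / 2)
    (v := (x1 - x2) / 4) (by linarith) (by linarith) (by linarith) (by linarith)
  constructor
  · nlinarith [hM.1, sq_nonneg ((x1 - x2) / 4)]
  · linarith [hM.2]

theorem riem_main : ∃ c : ℝ, 0 < c ∧ IsGLB (riemSet (fun x => 2 / (1 + x)) (cq sN) (cq sM)) c := by
  have hl : (1 / 7 : ℝ) ∈ lowerBounds (riemSet (fun x => 2 / (1 + x)) (cq sN) (cq sM)) := by
    rintro r ⟨ρ, X, hρ, hX, ht, h0, rfl⟩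
    obtain ⟨h1, h2⟩ := riem_bound hρ hX ht
    have : 0 < Riem (fun x => 2 / (1 + x)) (cq sM ρ) (cq sM X) :=
      lt_of_le_of_ne (le_trans (by positivity) h1) h0.symm
    rw [le_div_iff₀ this]
    linarith
  have hne : (riemSet (fun x => 2 / (1 + x)) (cq sN) (cq sM)).Nonempty := by
    have hρ : IsState (dg 1 0 0) := dg_state (by norm_num) le_rfl le_rfl (by norm_num)
    have hX : (dg (-1) 1 0).IsHermitian := dg_herm _ _ _
    have ht : (dg (-1) 1 0).trace = 0 := by rw [dg_trace]; simp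
    refine ⟨_, _, _, hρ, hX, ht, ?_, rfl⟩
    have h1 := (riem_bound hρ hX ht).1
    have : (((dg (-1) 1 0) 1 1).re + ((dg (-1) 1 0) 2 2).re) ^ 2 / 4 = 1 / 4 := by simp [dg]
    rw [this] at h1
    linarith
  exact ⟨_, lt_of_lt_of_le (by norm_num) (le_csInf hne hl), isGLB_csInf hne ⟨_, hl⟩⟩

theorem range_top {a b c : ℝ} (ha : a ≠ 0) (hb : b ≠ 0) (hc : c ≠ 0) :
    LinearMap.range (dg a b c).mulVecLin = ⊤ := by
  rw [eq_top_iff]
  intro v _
  refine ⟨dg a⁻¹ b⁻¹ c⁻¹ *ᵥ v, ?_⟩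
  rw [mulVecLin_apply, mulVec_mulVec, dg_mul, mul_inv_cancel₀ ha, mul_inv_cancel₀ hb,
    mul_inv_cancel₀ hc, dg_one, one_mulVec]

theorem std_mem {d : ℝ} (hd : 0 < d) (hd' : d < 1 / 2) :
    d ∈ stdSet (fun x => (x - 1) ^ 2) (cq sN) (cq sM) := by
  have hρ : IsState (dg (1 - 2 * d) (3 * d / 2) (d / 2)) :=
    dg_state (by linarith) (by linarith) (by linarith) (by ring)
  have hγ : IsState (dg (1 - 2 * d) d d) := dg_state (by linarith) hd.le hd.le (by ring)
  have q1 : 1 - d ≠ 0 := by linarith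
  have eM1 : cq sM (dg (1 - 2 * d) (3 * d / 2) (d / 2)) = m2 (1 - d) (d / 4) (d / 4) d := by
    rw [M_eq (x := 1 - 2 * d) (y := 3 * d / 2) (z := d / 2) (by simp [dg]) (by simp [dg])
      (by simp [dg])]
    congr 1 <;> ring
  have eM2 : cq sM (dg (1 - 2 * d) d d) = m2 (1 - d) 0 0 d := by
    rw [M_eq (x := 1 - 2 * d) (y := d) (z := d) (by simp [dg]) (by simp [dg]) (by simp [dg])]
    congr 1 <;> ring
  have eN1 : cq sN (dg (1 - 2 * d) (3 * d / 2) (d / 2)) =
      dg d ((1 - d + d / 4) / 2) ((1 - d - d / 4) / 2) := by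
    rw [N_eq (x := 1 - 2 * d) (y := 3 * d / 2) (z := d / 2) (by simp [dg]) (by simp [dg])
      (by simp [dg])]
    congr 1 <;> ring
  have eN2 : cq sN (dg (1 - 2 * d) d d) = dg d ((1 - d) / 2) ((1 - d) / 2) := by
    rw [N_eq (x := 1 - 2 * d) (y := d) (z := d) (by simp [dg]) (by simp [dg]) (by simp [dg])]
    congr 1 <;> ring
  have dM : Dstd (fun x => (x - 1) ^ 2) (cq sM (dg (1 - 2 * d) (3 * d / 2) (d / 2)))
      (cq sM (dg (1 - 2 * d) d d)) = d / (16 * (1 - d)) := by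
    rw [dstd_eq (cq_psd sM sM_state hρ.1) (cq_psd sM sM_state hγ.1) (τ := m2 (1 - d)⁻¹ 0 0 d⁻¹)]
    · rw [eM1, eM2, m2_sub, m2_mul, m2_mul, m2_trace, Complex.ofReal_re]
      field_simp
      ring
    · rw [eM2, m2_mul, ← m2_one]
      congr 1 <;> field_simp <;> ring
  have dN : Dstd (fun x => (x - 1) ^ 2) (cq sN (dg (1 - 2 * d) (3 * d / 2) (d / 2)))
      (cq sN (dg (1 - 2 * d) d d)) = d ^ 2 / (16 * (1 - d)) := by
    rw [dstd_eq (cq_psd sN sN_state hρ.1) (cq_psd sN sN_state hγ.1)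
      (τ := dg d⁻¹ (2 / (1 - d)) (2 / (1 - d)))]
    · rw [eN1, eN2, dg_sub, dg_mul, dg_mul, dg_trace, Complex.ofReal_re]
      field_simp
      ring
    · rw [eN2, dg_mul, ← dg_one]
      congr 1 <;> field_simp
  refine ⟨_, _, hρ, hγ, ?_, ?_, ?_, ?_⟩
  · intro h
    have := congrArg Complex.re (congrFun (congrFun h 2) 2)
    simp [dg] at this
    linarith
  · rw [range_top (by linarith) (by linarith) (by linarith),
      range_top (by linarith) (by linarith) (by linarith)]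
  · rw [dM]
    have : 0 < 1 - d := by linarith
    positivity
  · rw [dM, dN]
    field_simp

theorem std_main : IsGLB (stdSet (fun x => (x - 1) ^ 2) (cq sN) (cq sM)) 0 := by
  constructor
  · rintro r ⟨ρ, γ, -, -, -, -, -, rfl⟩
    exact div_nonneg (dstd_nonneg _ _) (dstd_nonneg _ _)
  · intro b hb
    by_contra h
    push Not at h
    have h1 := hb (std_mem (d := min (b / 2) (1 / 4)) (lt_min (by linarith) (by norm_num))
      (lt_of_le_of_lt (min_le_right _ _) (by norm_num)))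
    have := min_le_left (b / 2) (1 / 4)
    linarith

end Pool.Agent.H.MP_7112d2_mp
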